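import Pool.Agent.Helper17.FP.Stmts

set_option autoImplicit false

open Finset

namespace Pool.Agent.Helper17.FP

open Pool.Agent.Helper17.SO Pool.Agent.Helper17.SV

theorem rho_chi_mul (lam m n : ℕ) : chi lam (m * n) = chi lam m * chi lam n := by
  unfold chi
  by_cases hm : m % 2 = 1
  · by_cases hn : n % 2 = 1
    · have h : (m * n) % 2 = 1 := by rw [Nat.mul_mod, hm, hn]
      rw [if_pos h, if_pos hm, if_pos hn]
      apply jacobiSym.mul_right' <;> rintro rfl <;> simp at *
    · have h : ¬ (m * n) % 2 = 1 := by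
        have : n % 2 = 0 := by omega
        rw [Nat.mul_mod, this]; simp
      rw [if_neg h, if_neg hn, mul_zero]
  · have h : ¬ (m * n) % 2 = 1 := by
      have : m % 2 = 0 := by omega
      rw [Nat.mul_mod, this]; simp
    rw [if_neg h, if_neg hm, zero_mul]

theorem rho_chi_one (lam : ℕ) : chi lam 1 = 1 := by
  unfold chi
  simp

theorem rho_wt_mul (lam m n : ℕ) (h : m.Coprime n) :
    wt lam (m * n) = wt lam m * wt lam n := by
  obtain ⟨f, hf⟩ : ∃ f : ArithmeticFunction ℤ, ∀ d, f d = chi lam d :=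
    ⟨⟨fun d => chi lam d, by simp [chi]⟩, fun d => rfl⟩
  have hm : f.IsMultiplicative := by
    refine ⟨by rw [hf, rho_chi_one], fun {a b} _ => ?_⟩
    rw [hf, hf, hf, rho_chi_mul]
  have key : ∀ x, (f * (ArithmeticFunction.zeta : ArithmeticFunction ℤ)) x = wt lam x := by
    intro x
    rw [ArithmeticFunction.coe_mul_zeta_apply]
    unfold wt
    exact sum_congr rfl fun d _ => hf d
  rw [← key, ← key, ← key]
  exact (hm.mul ArithmeticFunction.isMultiplicative_zeta.natCast).map_mul_of_coprime h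

/-- number of solutions -/
def rho_N (lam r : ℕ) : Finset ℕ :=
  (range r).filter (fun a => (r : ℤ) ∣ (a : ℤ) ^ 2 - a + lam)

theorem rho_N_mul (lam r s : ℕ) (h : r.Coprime s) (hr : 0 < r) (hs : 0 < s) :
    (rho_N lam (r * s)).card ≤ (rho_N lam r).card * (rho_N lam s).card := by
  rw [← card_product]
  have red : ∀ t a : ℕ, (t : ℤ) ∣ (a : ℤ) ^ 2 - a + lam →
      (t : ℤ) ∣ ((a % t : ℕ) : ℤ) ^ 2 - ((a % t : ℕ) : ℤ) + lam := by
    intro t a ha
    have e : ((a % t : ℕ) : ℤ) ^ 2 - ((a % t : ℕ) : ℤ) + lam =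
        ((a : ℤ) ^ 2 - a + lam) + (t : ℤ) * (-(a / t : ℤ) * (2 * a - t * (a / t : ℤ) - 1)) := by
      have h1 : ((a % t : ℕ) : ℤ) = a - t * (a / t : ℤ) := by
        push_cast
        rw [Int.emod_def]
      rw [h1]
      ring
    rw [e]
    exact dvd_add ha (Dvd.intro _ rfl)
  apply card_le_card_of_injOn (fun a => (a % r, a % s))
  · intro a ha
    have ha' := (mem_filter.1 (mem_coe.1 ha)).2
    push_cast at ha'
    refine mem_coe.2 (mem_product.2 ⟨mem_filter.2 ⟨mem_range.2 (Nat.mod_lt _ hr), ?_⟩,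
      mem_filter.2 ⟨mem_range.2 (Nat.mod_lt _ hs), ?_⟩⟩)
    · exact red r a ((Dvd.intro _ rfl).trans ha')
    · exact red s a ((Dvd.intro_left _ rfl).trans ha')
  · intro a ha b hb hab
    have ha' := mem_range.1 (mem_filter.1 (mem_coe.1 ha)).1
    have hb' := mem_range.1 (mem_filter.1 (mem_coe.1 hb)).1
    simp only [Prod.mk.injEq] at hab
    have : a ≡ b [MOD r * s] := (Nat.modEq_and_modEq_iff_modEq_mul h).1 hab
    exact Nat.ModEq.eq_of_lt_of_lt this ha' hb'

theorem rho_dvd (p : ℤ) (hp : Prime p) : ∀ (s e : ℕ) (x z : ℤ), p ^ e ∣ x * z →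
    ¬ p ^ (s + 1) ∣ x → p ^ (e - s) ∣ z := by
  intro s
  induction s with
  | zero =>
    intro e x z h1 h2
    rw [zero_add, pow_one] at h2
    exact hp.pow_dvd_of_dvd_mul_left e h2 h1
  | succ s ih =>
    intro e x z h1 h2
    by_cases hx : p ∣ x
    · obtain ⟨y, rfl⟩ := hx
      rcases e with _ | e
      · simp
      · have h3 : ¬ p ^ (s + 1) ∣ y := by
          intro h
          apply h2
          rw [pow_succ' p (s + 1)]
          exact mul_dvd_mul_left _ h
        have h4 : p ^ e ∣ y * z := by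
          have : p * p ^ e ∣ p * (y * z) := by
            rw [← pow_succ', ← mul_assoc]; exact h1
          exact (mul_dvd_mul_iff_left hp.ne_zero).1 this
        have := ih e y z h4 h3
        rwa [Nat.add_sub_add_right]
    · exact (pow_dvd_pow p (Nat.sub_le _ _)).trans (hp.pow_dvd_of_dvd_mul_left e hx h1)

theorem rho_pair (lam p e s : ℕ) (hp : p.Prime) (h2 : p ≠ 2)
    (hs : ¬ ((p : ℤ)) ^ (s + 1) ∣ 4 * (lam : ℤ) - 1) (a b : ℤ)
    (ha : ((p : ℤ)) ^ e ∣ a ^ 2 - a + lam) (hb : ((p : ℤ)) ^ e ∣ b ^ 2 - b + lam) :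
    ((p : ℤ)) ^ (e - s) ∣ a - b ∨ ((p : ℤ)) ^ (e - s) ∣ a + b - 1 := by
  have hpp : Prime (p : ℤ) := Nat.prime_iff_prime_int.1 hp
  by_cases hes : e ≤ s
  · left
    rw [Nat.sub_eq_zero_of_le hes, pow_zero]
    exact one_dvd _
  push Not at hes
  have hm : (p : ℤ) ^ e ∣ (a - b) * (a + b - 1) := by
    have : (a - b) * (a + b - 1) = (a ^ 2 - a + lam) - (b ^ 2 - b + lam) := by ring
    rw [this]
    exact dvd_sub ha hb
  by_cases h1 : (p : ℤ) ^ (s + 1) ∣ a - b
  · left
    have h3 : ¬ (p : ℤ) ^ (s + 1) ∣ a + b - 1 := by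
      intro h4
      apply hs
      have h5 : (p : ℤ) ^ (s + 1) ∣ 2 * a - 1 := by
        have : 2 * a - 1 = (a - b) + (a + b - 1) := by ring
        rw [this]
        exact dvd_add h1 h4
      have h6 : 4 * (lam : ℤ) - 1 = 4 * (a ^ 2 - a + lam) - (2 * a - 1) * (2 * a - 1) := by ring
      rw [h6]
      exact dvd_sub (((pow_dvd_pow _ hes).trans ha).mul_left _) (h5.mul_left _)
    exact rho_dvd p hpp s e (a + b - 1) (a - b) (by rw [mul_comm]; exact hm) h3
  · right
    exact rho_dvd p hpp s e (a - b) (a + b - 1) hm h1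

theorem rho_class (M B : ℕ) (T : Finset ℕ) (hM : 0 < M)
    (h : ∀ a ∈ T, a < M * B) (hc : ∀ a ∈ T, ∀ b ∈ T, (M : ℤ) ∣ (a : ℤ) - b) : T.card ≤ B := by
  have : T.card ≤ (range B).card := by
    apply card_le_card_of_injOn (fun a => a / M)
    · intro a ha
      exact mem_coe.2 (mem_range.2 (Nat.div_lt_of_lt_mul (h a ha)))
    · intro a ha b hb hab
      have h1 : a % M = b % M := by
        have := hc b hb a ha
        exact ((Nat.modEq_iff_dvd (n := M) (a := a) (b := b)).2 this)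
      calc a = M * (a / M) + a % M := (Nat.div_add_mod a M).symm
        _ = M * (b / M) + b % M := by rw [h1, show a / M = b / M from hab]
        _ = b := Nat.div_add_mod b M
  rwa [card_range] at this

theorem rho_pp_count (lam p e s : ℕ) (hp : p.Prime) (h2 : p ≠ 2)
    (hs : ¬ ((p : ℤ)) ^ (s + 1) ∣ 4 * (lam : ℤ) - 1) :
    (rho_N lam (p ^ e)).card ≤ 2 * p ^ s := by
  classical
  by_cases hN : (rho_N lam (p ^ e)).Nonempty
  swap
  · rw [not_nonempty_iff_eq_empty.1 hN]; simp
  obtain ⟨c, hc⟩ := hN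
  have hc' := (mem_filter.1 hc).2
  push_cast at hc'
  have hb : ∀ a ∈ rho_N lam (p ^ e), a < p ^ (e - s) * p ^ s := by
    intro a ha
    have h3 := mem_range.1 (mem_filter.1 ha).1
    refine h3.trans_le ?_
    rw [← pow_add]
    exact Nat.pow_le_pow_right hp.pos (by omega)
  have hM : 0 < p ^ (e - s) := pow_pos hp.pos _
  have hsub : rho_N lam (p ^ e) ⊆
      (rho_N lam (p ^ e)).filter (fun a : ℕ => ((p ^ (e - s) : ℕ) : ℤ) ∣ (c : ℤ) - a) ∪
      (rho_N lam (p ^ e)).filter (fun a : ℕ => ((p ^ (e - s) : ℕ) : ℤ) ∣ (c : ℤ) + a - 1) := by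
    intro a ha
    have ha' := (mem_filter.1 ha).2
    push_cast at ha'
    rw [mem_union, mem_filter, mem_filter]
    push_cast
    rcases rho_pair lam p e s hp h2 hs c a hc' ha' with h | h
    · exact Or.inl ⟨ha, h⟩
    · exact Or.inr ⟨ha, h⟩
  have e1 : ((rho_N lam (p ^ e)).filter
      (fun a : ℕ => ((p ^ (e - s) : ℕ) : ℤ) ∣ (c : ℤ) - a)).card ≤ p ^ s := by
    apply rho_class (p ^ (e - s)) (p ^ s) _ hM
    · intro a ha
      exact hb a (mem_filter.1 ha).1
    · intro a ha b hb'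
      have h3 := (mem_filter.1 ha).2
      have h4 := (mem_filter.1 hb').2
      have : (a : ℤ) - b = ((c : ℤ) - b) - (c - a) := by ring
      rw [this]
      exact dvd_sub h4 h3
  have e2 : ((rho_N lam (p ^ e)).filter
      (fun a : ℕ => ((p ^ (e - s) : ℕ) : ℤ) ∣ (c : ℤ) + a - 1)).card ≤ p ^ s := by
    apply rho_class (p ^ (e - s)) (p ^ s) _ hM
    · intro a ha
      exact hb a (mem_filter.1 ha).1
    · intro a ha b hb'
      have h3 := (mem_filter.1 ha).2
      have h4 := (mem_filter.1 hb').2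
      have : (a : ℤ) - b = ((c : ℤ) + a - 1) - (c + b - 1) := by ring
      rw [this]
      exact dvd_sub h3 h4
  calc (rho_N lam (p ^ e)).card ≤ _ := card_le_card hsub
    _ ≤ _ + _ := card_union_le _ _
    _ ≤ p ^ s + p ^ s := add_le_add e1 e2
    _ = 2 * p ^ s := by ring

/-- the constant -/
def rho_K (lam n : ℕ) : ℕ :=
  ∏ p ∈ n.primeFactors, if p ∣ 4 * lam - 1 then 2 * p ^ (4 * lam - 1).factorization p else 1

theorem rho_wt_pp (lam p e : ℕ) (hp : p.Prime) (h2 : p ≠ 2) :
    wt lam (p ^ e) = ∑ i ∈ range (e + 1), (jacobiSym (1 - 4 * (lam : ℤ)) p) ^ i := by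
  unfold wt
  rw [Nat.sum_divisors_prime_pow hp]
  refine sum_congr rfl fun i _ => ?_
  unfold chi
  have : (p ^ i) % 2 = 1 := Nat.odd_iff.1 ((hp.odd_of_ne_two h2).pow)
  rw [if_pos this, jacobiSym.pow_right]

theorem rho_pp (h : ST_WNN) (lam p e : ℕ) (hlam : 1 ≤ lam) (hp : p.Prime) (h2 : p ≠ 2)
    (he : 0 < e) :
    ((rho_N lam (p ^ e)).card : ℤ) ≤ rho_K lam (p ^ e) * wt lam (p ^ e) := by
  have hK : rho_K lam (p ^ e) =
      if p ∣ 4 * lam - 1 then 2 * p ^ (4 * lam - 1).factorization p else 1 := by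
    unfold rho_K
    rw [Nat.primeFactors_prime_pow he.ne' hp, prod_singleton]
  have hD : ((4 * lam - 1 : ℕ) : ℤ) = 4 * (lam : ℤ) - 1 := by
    rw [Nat.cast_sub (by omega)]; push_cast; ring
  have hD0 : 4 * lam - 1 ≠ 0 := by omega
  have hs : ¬ ((p : ℤ)) ^ ((4 * lam - 1).factorization p + 1) ∣ 4 * (lam : ℤ) - 1 := by
    rw [← hD]
    intro h3
    have h4 : p ^ ((4 * lam - 1).factorization p + 1) ∣ 4 * lam - 1 := by exact_mod_cast h3
    exact Nat.pow_succ_factorization_not_dvd hD0 hp h4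
  have hcard := rho_pp_count lam p e _ hp h2 hs
  have hw := rho_wt_pp lam p e hp h2
  haveI : NeZero p := ⟨hp.ne_zero⟩
  by_cases hpD : p ∣ 4 * lam - 1
  · have hj : jacobiSym (1 - 4 * (lam : ℤ)) p = 0 := by
      rw [jacobiSym.eq_zero_iff_not_coprime]
      intro h3
      have h4 : (p : ℤ) ∣ (1 - 4 * (lam : ℤ)) := by
        have h5 : (p : ℤ) ∣ ((4 * lam - 1 : ℕ) : ℤ) := by exact_mod_cast hpD
        rw [hD] at h5
        have := (dvd_neg).2 h5
        rwa [neg_sub] at this
      have h5 : (p : ℤ) ∣ ((Int.gcd (1 - 4 * (lam : ℤ)) p : ℕ) : ℤ) := Int.dvd_coe_gcd h4 dvd_rfl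
      rw [h3] at h5
      exact hp.one_lt.ne' (Nat.dvd_one.1 (by exact_mod_cast h5))
    rw [hK, if_pos hpD, hw, hj, sum_range_succ']
    have : ∑ k ∈ range e, (0 : ℤ) ^ (k + 1) = 0 := sum_eq_zero fun k _ => by
      rw [zero_pow (Nat.succ_ne_zero k)]
    rw [this, pow_zero, zero_add, mul_one]
    exact_mod_cast hcard
  · have h0 : (4 * lam - 1).factorization p = 0 := Nat.factorization_eq_zero_of_not_dvd hpD
    rw [h0, pow_zero, mul_one] at hcard
    rw [hK, if_neg hpD]
    by_cases hN : (rho_N lam (p ^ e)).Nonempty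
    · obtain ⟨a, ha⟩ := hN
      have ha' := (mem_filter.1 ha).2
      push_cast at ha'
      have hpa : (p : ℤ) ∣ (a : ℤ) ^ 2 - a + lam := (dvd_pow_self _ he.ne').trans ha'
      have hg : (2 * (a : ℤ) - 1).gcd p = 1 := by
        rw [Int.gcd_comm]
        apply (Int.isCoprime_iff_gcd_eq_one).1
        apply ((Nat.prime_iff_prime_int.1 hp).irreducible.coprime_iff_not_dvd).2
        intro h3
        apply hpD
        have h4 : (p : ℤ) ∣ ((4 * lam - 1 : ℕ) : ℤ) := by
          rw [hD, show 4 * (lam : ℤ) - 1 = 4 * ((a : ℤ) ^ 2 - a + lam) -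
            (2 * a - 1) * (2 * a - 1) by ring]
          exact dvd_sub (hpa.mul_left _) (h3.mul_left _)
        exact_mod_cast h4
      have hj : jacobiSym (1 - 4 * (lam : ℤ)) p = 1 := by
        refine Eq.trans (jacobiSym.mod_left' ?_) (jacobiSym.sq_one' hg)
        apply Int.ModEq.symm
        apply (Int.modEq_iff_dvd).2
        have : (1 - 4 * (lam : ℤ)) - (2 * (a : ℤ) - 1) ^ 2 = -(4 * ((a : ℤ) ^ 2 - a + lam)) := by
          ring
        rw [this]
        exact (dvd_neg).2 (hpa.mul_left _)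
      rw [hw, hj]
      simp only [one_pow, sum_const, card_range, nsmul_eq_mul, mul_one]
      push_cast
      have : ((rho_N lam (p ^ e)).card : ℤ) ≤ 2 := by exact_mod_cast hcard
      have he' : (1 : ℤ) ≤ e := by exact_mod_cast he
      linarith only [this, he']
    · rw [not_nonempty_iff_eq_empty.1 hN]
      simp only [card_empty, Nat.cast_zero, Nat.cast_one, one_mul]
      exact h lam _

theorem rho_K_mul (lam m n : ℕ) (h : m.Coprime n) : rho_K lam (m * n) = rho_K lam m * rho_K lam n := by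
  unfold rho_K
  rw [h.primeFactors_mul, prod_union h.disjoint_primeFactors]

theorem rho_all (h : ST_WNN) (lam : ℕ) (hlam : 1 ≤ lam) (n : ℕ) (hn : Odd n) :
    ((rho_N lam n).card : ℤ) ≤ rho_K lam n * wt lam n := by
  induction n using Nat.recOnPosPrimePosCoprime with
  | prime_pow p e hp he =>
    apply rho_pp h lam p e hlam hp _ he
    rintro rfl
    exact absurd hn (Nat.not_odd_iff_even.2 ((Nat.even_pow).2 ⟨even_two, he.ne'⟩))
  | zero => exact absurd hn (by decide)
  | one =>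
    have h1 : (rho_N lam 1).card ≤ 1 := by
      refine (card_filter_le _ _).trans ?_
      simp
    have h2 : wt lam 1 = 1 := by
      unfold wt
      rw [Nat.divisors_one, sum_singleton, rho_chi_one]
    have h3 : rho_K lam 1 = 1 := by
      unfold rho_K
      simp
    rw [h2, h3]
    exact_mod_cast h1
  | coprime a b ha hb hab iha ihb =>
    have hab' := Nat.odd_mul.1 hn
    have h1 := iha hab'.1
    have h2 := ihb hab'.2
    have h3 := rho_N_mul lam a b hab (by omega) (by omega)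
    rw [rho_K_mul lam a b hab, rho_wt_mul lam a b hab]
    push_cast
    calc ((rho_N lam (a * b)).card : ℤ) ≤ ((rho_N lam a).card : ℤ) * (rho_N lam b).card := by
          exact_mod_cast h3
      _ ≤ (rho_K lam a * wt lam a) * (rho_K lam b * wt lam b) :=
          mul_le_mul h1 h2 (by positivity) (mul_nonneg (by positivity) (h lam a))
      _ = _ := by ring

theorem st_RHO (h : ST_WNN) : ST_RHO := by
  intro lam hlam
  obtain ⟨C, hC⟩ : ∃ C : ℕ, C = ∏ p ∈ (4 * lam - 1).primeFactors,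
      2 * p ^ (4 * lam - 1).factorization p := ⟨_, rfl⟩
  have hD0 : 4 * lam - 1 ≠ 0 := by omega
  have hone : ∀ p ∈ (4 * lam - 1).primeFactors, 1 ≤ 2 * p ^ (4 * lam - 1).factorization p := by
    intro p hp
    have := (Nat.prime_of_mem_primeFactors hp).pos
    have : 0 < p ^ (4 * lam - 1).factorization p := pow_pos this _
    omega
  have hC1 : 1 ≤ C := by
    rw [hC]
    exact Nat.one_le_iff_ne_zero.2 (prod_ne_zero_iff.2 fun p hp =>
      (Nat.one_le_iff_ne_zero.1 (hone p hp)))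
  refine ⟨C, by exact_mod_cast hC1, ?_⟩
  intro r hr R hR
  have hsub : R ⊆ rho_N lam r := by
    intro a ha
    exact mem_filter.2 ⟨mem_range.2 (hR a ha).1, (hR a ha).2⟩
  have hK : rho_K lam r ≤ C := by
    rw [hC]
    unfold rho_K
    rw [← prod_filter]
    apply prod_le_prod_of_subset_of_one_le'
    · intro p hp
      have h1 := mem_filter.1 hp
      exact Nat.mem_primeFactors.2 ⟨Nat.prime_of_mem_primeFactors h1.1, h1.2, hD0⟩
    · intro p hp _
      exact hone p hp
  have h1 := rho_all h lam hlam r hr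
  have hw := h lam r
  have h2 : (R.card : ℤ) ≤ C * wt lam r := by
    calc (R.card : ℤ) ≤ (rho_N lam r).card := by exact_mod_cast card_le_card hsub
      _ ≤ rho_K lam r * wt lam r := h1
      _ ≤ C * wt lam r := mul_le_mul_of_nonneg_right (by exact_mod_cast hK) hw
  exact_mod_cast h2

end Pool.Agent.Helper17.FP
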